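import Mathlib

/-!
# MP_a7dadb_al, Q1: a unit-regular ring and an element without a common inner inverse

`F = ZMod 2`, `K = F(s)`, `t = s⁻¹`. Choose an `F`-linear retraction `l : K → F[X]` of
`p ↦ p(s)` and put `Λ₀ = coeff₀ ∘ l`, `Λ_n = coeff₀ ∘ l + coeff_{n+1} ∘ l`, so `Λ_n → Λ₀`
pointwise. The ring `R` consists of the sequences `x = (x_n)` of `F`-linear operators on `K` such
that each `x_n` is a multiplication plus an operator `y ↦ ∑ f_i Λ_n (g_i y)`, with data that do
not depend on `n` for large `n`. It is unit-regular. The element is `a_n y = t (y - Λ_n y)`; the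
kernel of `a_n` is `F`, and `s ^ n` is the first power of `s` outside the image of `a_n`.

If `a ^ k w ^ k a ^ k = a ^ k` for all `k`, then for large `n` one finds `Λ_n (s · w_n ^ i 1) = 0`
for all `i`, while `w_n ^ n 1` is a monic polynomial of degree `n` in `s`; a contradiction.
-/

namespace Pool.Agent.Results.MP_a7dadb_al.NoCommonInnerInverse

open Filter Polynomial

/-- A ring is unit-regular if each element has an inner inverse that is a unit. -/
def IsUnitRegular (R : Type) [Ring R] : Prop :=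
  ∀ a : R, ∃ u : R, IsUnit u ∧ a * u * a = a

section linalg

variable {F : Type} [Field F] {V : Type} [AddCommGroup V] [Module F V] [FiniteDimensional F V]

/-- each endomorphism of a finite-dimensional space has an inner inverse -/
theorem exists_inner (N : Module.End F V) : ∃ Q : Module.End F V, N * Q * N = N := by
  obtain ⟨σ, hσ⟩ := LinearMap.exists_rightInverse_of_surjective N.rangeRestrict
    (LinearMap.range_rangeRestrict N)
  obtain ⟨π, hπ⟩ := LinearMap.exists_leftInverse_of_injective (LinearMap.range N).subtype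
    (Submodule.ker_subtype _)
  refine ⟨σ ∘ₗ π, ?_⟩
  ext y
  have h1 : π (N y) = N.rangeRestrict y := by
    have := LinearMap.congr_fun hπ (N.rangeRestrict y)
    simpa using this
  have h2 := LinearMap.congr_fun hσ (N.rangeRestrict y)
  have h3 : N (σ (N.rangeRestrict y)) = N y := by
    have := congrArg Subtype.val h2
    simpa using this
  simp only [Module.End.mul_apply, LinearMap.comp_apply]
  rw [h1, h3]

/-- stable range one for endomorphisms of a finite-dimensional space -/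
theorem exists_unit (α β : Module.End F V) (h : ∀ y, α y = 0 → β y = 0 → y = 0) :
    ∃ Z : Module.End F V, IsUnit (α + Z * β) := by
  obtain ⟨C, hC⟩ := Submodule.exists_isCompl (LinearMap.range α)
  have hdim : Module.finrank F (LinearMap.ker α) = Module.finrank F C := by
    have h1 := LinearMap.finrank_range_add_finrank_ker α
    have h2 := Submodule.finrank_add_eq_of_isCompl hC
    omega
  let θ := LinearEquiv.ofFinrankEq (LinearMap.ker α) C hdim
  obtain ⟨lam, hlam⟩ := LinearMap.exists_leftInverse_of_injective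
    (β ∘ₗ (LinearMap.ker α).subtype) (by
      rw [LinearMap.ker_eq_bot']
      intro y hy
      have := h y.1 y.2 hy
      exact Subtype.ext this)
  refine ⟨C.subtype ∘ₗ θ.toLinearMap ∘ₗ lam, ?_⟩
  rw [LinearMap.isUnit_iff_ker_eq_bot, LinearMap.ker_eq_bot']
  intro y hy
  have hy' : α y + ((θ (lam (β y)) : C) : V) = 0 := hy
  have h1 : α y ∈ LinearMap.range α := ⟨y, rfl⟩
  have h2 : α y ∈ C := by
    have : α y = -((θ (lam (β y)) : C) : V) := eq_neg_of_add_eq_zero_left hy'
    rw [this]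
    exact C.neg_mem (Subtype.mem _)
  have h3 : α y = 0 := by
    have := (Submodule.disjoint_def.mp hC.disjoint) _ h1 h2
    exact this
  have h4 : θ (lam (β y)) = 0 := by
    rw [h3, zero_add] at hy'
    exact Subtype.ext hy'
  have h5 : lam (β y) = 0 := by simpa using h4
  have h6 := LinearMap.congr_fun hlam ⟨y, h3⟩
  simp only [LinearMap.comp_apply, Submodule.subtype_apply, LinearMap.id_apply] at h6
  rw [h5] at h6
  exact (congrArg Subtype.val h6).symm

theorem exists_Q (M : Module.End F V) : ∃ Q Z : Module.End F V,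
    (1 + M) * Q * (1 + M) = 1 + M ∧ (1 - Q * M) * Z = 1 ∧ Z * (1 - Q * M) = 1 := by
  obtain ⟨Q₀, hQ₀⟩ := exists_inner (1 + M)
  obtain ⟨Z', hZ'⟩ := exists_unit (1 - Q₀ * (1 + M) + Q₀) (1 - (1 + M) * Q₀) (by
    intro y h1 h2
    have e2 : y = (1 + M) (Q₀ y) := by
      have : y - (1 + M) (Q₀ y) = 0 := h2
      exact sub_eq_zero.mp this
    have e1 : y - Q₀ ((1 + M) y) + Q₀ y = 0 := h1
    have e3 := congrArg (fun z => (1 + M) z) e1
    simp only [map_add, map_sub, map_zero] at e3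
    have e4 : (1 + M) (Q₀ ((1 + M) y)) = (1 + M) y := LinearMap.congr_fun hQ₀ y
    rw [e4, sub_self, zero_add, ← e2] at e3
    exact e3)
  obtain ⟨w, hw⟩ := hZ'
  have hβ : (1 - (1 + M) * Q₀) * (1 + M) = 0 := by
    rw [sub_mul, one_mul, hQ₀, sub_self]
  have hkey : 1 - (Q₀ + Z' * (1 - (1 + M) * Q₀)) * M
      = 1 - Q₀ * (1 + M) + Q₀ + Z' * (1 - (1 + M) * Q₀) := by
    have e : M = (1 + M) - 1 := by abel
    have : (Q₀ + Z' * (1 - (1 + M) * Q₀)) * M
        = Q₀ * (1 + M) - Q₀ + Z' * ((1 - (1 + M) * Q₀) * (1 + M))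
          - Z' * (1 - (1 + M) * Q₀) := by
      conv_lhs => rw [e]
      noncomm_ring
    rw [this, hβ]
    noncomm_ring
  refine ⟨Q₀ + Z' * (1 - (1 + M) * Q₀), ↑w⁻¹, ?_, ?_, ?_⟩
  · have : (1 + M) * (Q₀ + Z' * (1 - (1 + M) * Q₀)) * (1 + M)
        = (1 + M) * Q₀ * (1 + M) + (1 + M) * Z' * ((1 - (1 + M) * Q₀) * (1 + M)) := by
      noncomm_ring
    rw [this, hβ, mul_zero, add_zero, hQ₀]
  · rw [hkey, ← hw]
    exact w.mul_inv
  · rw [hkey, ← hw]
    exact w.inv_mul

end linalg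

section setting

variable {F K : Type} [Field F] [Field K] [Algebra F K]

/-- the linear map `y ↦ (Λ (g i * y))_i` -/
def G {ι : Type} (Λ : K →ₗ[F] F) (g : ι → K) : K →ₗ[F] (ι → F) :=
  LinearMap.pi fun i => Λ ∘ₗ LinearMap.mulLeft F (g i)

@[simp] theorem G_apply {ι : Type} (Λ : K →ₗ[F] F) (g : ι → K) (y : K) (i : ι) :
    G Λ g y i = Λ (g i * y) := rfl

/-- multiplication by `k` plus a finite-rank operator -/
def op {ι : Type} (Λ : K →ₗ[F] F) (k : K) (Φ : (ι → F) →ₗ[F] K) (g : ι → K) :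
    Module.End F K :=
  LinearMap.mulLeft F k + Φ ∘ₗ G Λ g

@[simp] theorem op_apply {ι : Type} (Λ : K →ₗ[F] F) (k : K) (Φ : (ι → F) →ₗ[F] K) (g : ι → K)
    (y : K) : op Λ k Φ g y = k * y + Φ (G Λ g y) := rfl

variable {A : Type}

/-- pointwise (discrete) convergence of functionals -/
def Tends (l : Filter A) (Λ : A → K →ₗ[F] F) (Λ₀ : K →ₗ[F] F) : Prop :=
  ∀ x, ∀ᶠ a in l, Λ a x = Λ₀ x

theorem Tends.comp {l : Filter A} {Λ : A → K →ₗ[F] F} {Λ₀ : K →ₗ[F] F} (h : Tends l Λ Λ₀)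
    {ι κ : Type} [Finite ι] [Finite κ] (Φ : (κ → F) →ₗ[F] K) (g : ι → K) :
    ∀ᶠ a in l, G (Λ a) g ∘ₗ Φ = G Λ₀ g ∘ₗ Φ := by
  classical
  have h1 : ∀ᶠ a in l, ∀ (i : ι) (j : κ), Λ a (g i * Φ (Pi.single j 1))
      = Λ₀ (g i * Φ (Pi.single j 1)) :=
    eventually_all.mpr fun i => eventually_all.mpr fun j => h _
  filter_upwards [h1] with a ha
  apply LinearMap.pi_ext'
  intro j
  ext i
  simpa using ha i j

/-- sequences of operators that are given by fixed data along the filter `l` -/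
def IsOp (l : Filter A) (Λ : A → K →ₗ[F] F) (x : A → Module.End F K) : Prop :=
  ∃ (ι : Type) (_ : Fintype ι) (k : K) (Φ : (ι → F) →ₗ[F] K) (g : ι → K),
    ∀ᶠ a in l, x a = op (Λ a) k Φ g

theorem IsOp.mul {l : Filter A} {Λ : A → K →ₗ[F] F} {Λ₀ : K →ₗ[F] F} (h : Tends l Λ Λ₀)
    {x y : A → Module.End F K} (hx : IsOp l Λ x) (hy : IsOp l Λ y) :
    IsOp l Λ (fun a => x a * y a) := by
  obtain ⟨ι, _, k, Φ, g, hx⟩ := hx
  obtain ⟨κ, _, k', Φ', g', hy⟩ := hy
  refine ⟨ι ⊕ κ, inferInstance, k * k',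
    Φ ∘ₗ LinearMap.funLeft F F Sum.inl
      + (LinearMap.mulLeft F k ∘ₗ Φ' + Φ ∘ₗ (G Λ₀ g ∘ₗ Φ')) ∘ₗ LinearMap.funLeft F F Sum.inr,
    Sum.elim (fun i => g i * k') g', ?_⟩
  filter_upwards [hx, hy, h.comp Φ' g] with a hxa hya hc
  rw [hxa, hya, ← hc]
  ext z
  have e1 : LinearMap.funLeft F F Sum.inl (G (Λ a) (Sum.elim (fun i => g i * k') g') z)
      = G (Λ a) g (k' * z) := by
    ext i
    simp [mul_assoc]
  have e2 : LinearMap.funLeft F F Sum.inr (G (Λ a) (Sum.elim (fun i => g i * k') g') z)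
      = G (Λ a) g' z := by
    ext i
    simp
  simp only [Module.End.mul_apply, op_apply, LinearMap.add_apply, LinearMap.comp_apply, e1, e2,
    map_add, LinearMap.mulLeft_apply]
  ring

theorem IsOp.add {l : Filter A} {Λ : A → K →ₗ[F] F}
    {x y : A → Module.End F K} (hx : IsOp l Λ x) (hy : IsOp l Λ y) :
    IsOp l Λ (fun a => x a + y a) := by
  obtain ⟨ι, _, k, Φ, g, hx⟩ := hx
  obtain ⟨κ, _, k', Φ', g', hy⟩ := hy
  refine ⟨ι ⊕ κ, inferInstance, k + k',
    Φ ∘ₗ LinearMap.funLeft F F Sum.inl + Φ' ∘ₗ LinearMap.funLeft F F Sum.inr,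
    Sum.elim g g', ?_⟩
  filter_upwards [hx, hy] with a hxa hya
  rw [hxa, hya]
  ext z
  have e1 : LinearMap.funLeft F F Sum.inl (G (Λ a) (Sum.elim g g') z) = G (Λ a) g z := by
    ext i
    simp
  have e2 : LinearMap.funLeft F F Sum.inr (G (Λ a) (Sum.elim g g') z) = G (Λ a) g' z := by
    ext i
    simp
  simp only [op_apply, LinearMap.add_apply, LinearMap.comp_apply, e1, e2]
  ring

theorem IsOp.neg {l : Filter A} {Λ : A → K →ₗ[F] F}
    {x : A → Module.End F K} (hx : IsOp l Λ x) : IsOp l Λ (fun a => - x a) := by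
  obtain ⟨ι, _, k, Φ, g, hx⟩ := hx
  refine ⟨ι, inferInstance, -k, -Φ, g, ?_⟩
  filter_upwards [hx] with a hxa
  rw [hxa]
  ext z
  simp only [op_apply, LinearMap.neg_apply]
  ring

theorem IsOp.const (l : Filter A) (Λ : A → K →ₗ[F] F) (k : K) :
    IsOp l Λ (fun _ => LinearMap.mulLeft F k) := by
  refine ⟨Empty, inferInstance, k, 0, fun e => e.elim, ?_⟩
  filter_upwards with a
  ext z
  simp

theorem IsOp.of (l : Filter A) (Λ : A → K →ₗ[F] F) {ι : Type} [Fintype ι] (k : K)
    (Φ : (ι → F) →ₗ[F] K) (g : ι → K) : IsOp l Λ (fun a => op (Λ a) k Φ g) :=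
  ⟨ι, inferInstance, k, Φ, g, Eventually.of_forall fun _ => rfl⟩


/-- surjectivity of `G` on independent families -/
theorem G_surj {κ : Type} [Fintype κ] {Λ : K →ₗ[F] F} (hΛ : Λ ≠ 0) {b : κ → K}
    (hb : LinearIndependent F b) : Function.Surjective (G Λ b) := by
  classical
  rw [← LinearMap.range_eq_top]
  by_contra hne
  obtain ⟨φ, hφ, hle⟩ := Submodule.exists_le_ker_of_lt_top _ (lt_top_iff_ne_top.mpr hne)
  apply hφ
  have hz : ∑ j, φ (Pi.single j 1) • b j = 0 := by
    by_contra hz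
    apply hΛ
    ext x
    have h1 : φ (G Λ b ((∑ j, φ (Pi.single j 1) • b j)⁻¹ * x)) = 0 := hle ⟨_, rfl⟩
    have h2 : φ (G Λ b ((∑ j, φ (Pi.single j 1) • b j)⁻¹ * x))
        = Λ ((∑ j, φ (Pi.single j 1) • b j) * ((∑ j, φ (Pi.single j 1) • b j)⁻¹ * x)) := by
      set y := (∑ j, φ (Pi.single j 1) • b j)⁻¹ * x with hy
      rw [Finset.sum_mul, map_sum]
      have h3 : G Λ b y = ∑ j, (G Λ b y j) • (Pi.single j 1 : κ → F) := by
        ext i
        simp [Finset.sum_apply, Pi.single_apply]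
      conv_lhs => rw [h3]
      rw [map_sum]
      apply Finset.sum_congr rfl
      intro j _
      rw [map_smul, smul_mul_assoc, map_smul, G_apply, smul_eq_mul, smul_eq_mul, mul_comm]
    rw [mul_inv_cancel_left₀ hz] at h2
    simp [← h2, h1]
  have hc := Fintype.linearIndependent_iff.mp hb _ hz
  apply LinearMap.pi_ext'
  intro j
  ext
  simpa using hc j

theorem exists_dual {κ ρ : Type} [Fintype κ] [Fintype ρ] {Λ : K →ₗ[F] F} (hΛ : Λ ≠ 0)
    {Ψ : (κ → F) →ₗ[F] K} (hΨ : Function.Injective Ψ) (Y : (κ → F) →ₗ[F] (ρ → F)) :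
    ∃ g : ρ → K, G Λ g ∘ₗ Ψ = Y := by
  classical
  have hb : LinearIndependent F (fun j : κ => Ψ (Pi.single j 1)) := by
    have e : (fun j : κ => Ψ (Pi.single j 1)) = Ψ ∘ (Pi.basisFun F κ) := by
      funext j
      simp
    rw [e]
    exact (Pi.basisFun F κ).linearIndependent.map' Ψ (LinearMap.ker_eq_bot.mpr hΨ)
  have h1 : ∀ i : ρ, ∃ z : K, ∀ j : κ, Λ (Ψ (Pi.single j 1) * z) = Y (Pi.single j 1) i := by
    intro i
    obtain ⟨z, hz⟩ := G_surj hΛ hb (fun j => Y (Pi.single j 1) i)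
    exact ⟨z, fun j => congrFun hz j⟩
  choose g hg using h1
  refine ⟨g, ?_⟩
  apply LinearMap.pi_ext'
  intro j
  ext i
  simp only [LinearMap.comp_apply, LinearMap.single_apply, G_apply]
  rw [mul_comm]
  exact hg i j

/-- factorization through the range -/
theorem exists_factor {V : Type} [AddCommGroup V] [Module F V] [FiniteDimensional F V]
    (Φ : V →ₗ[F] K) : ∃ (r : ℕ) (L : (Fin r → F) →ₗ[F] K) (C : V →ₗ[F] (Fin r → F))
      (S : (Fin r → F) →ₗ[F] V), Function.Injective L ∧ Φ = L ∘ₗ C ∧ C ∘ₗ S = LinearMap.id := by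
  let e := (Module.finBasis F (LinearMap.range Φ)).equivFun
  obtain ⟨σ, hσ⟩ := LinearMap.exists_rightInverse_of_surjective Φ.rangeRestrict
    (LinearMap.range_rangeRestrict Φ)
  refine ⟨_, (LinearMap.range Φ).subtype ∘ₗ e.symm.toLinearMap,
    e.toLinearMap ∘ₗ Φ.rangeRestrict, σ ∘ₗ e.symm.toLinearMap, ?_, ?_, ?_⟩
  · exact (Submodule.injective_subtype _).comp e.symm.injective
  · ext v
    simp
  · ext1 v
    have := LinearMap.congr_fun hσ (e.symm (Pi.single v 1))
    ext
    simp only [LinearMap.comp_apply, LinearMap.id_apply] at this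
    simp [this]

/-- passing to an independent family of functionals -/
theorem exists_indep {ι : Type} [Fintype ι] (g : ι → K) :
    ∃ (m : ℕ) (b : Fin m → K) (B : (Fin m → F) →ₗ[F] (ι → F)), LinearIndependent F b ∧
      ∀ Λ : K →ₗ[F] F, G Λ g = B ∘ₗ G Λ b := by
  classical
  let P := Submodule.span F (Set.range g)
  have : FiniteDimensional F P := FiniteDimensional.span_of_finite F (Set.finite_range g)
  let bb := Module.finBasis F P
  refine ⟨_, fun j => (bb j : K),
    LinearMap.pi fun i => ∑ j, bb.repr ⟨g i, Submodule.subset_span ⟨i, rfl⟩⟩ j •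
      LinearMap.proj j, ?_, ?_⟩
  · exact bb.linearIndependent.map' P.subtype (Submodule.ker_subtype _)
  · intro Λ
    ext y i
    have h1 : g i = ∑ j, bb.repr ⟨g i, Submodule.subset_span ⟨i, rfl⟩⟩ j • (bb j : K) := by
      have := congrArg Subtype.val (bb.sum_repr ⟨g i, Submodule.subset_span ⟨i, rfl⟩⟩)
      rw [Submodule.coe_sum] at this
      exact this.symm
    rw [G_apply]
    conv_lhs => rw [h1]
    simp only [Finset.sum_mul, map_sum, smul_mul_assoc, map_smul, LinearMap.comp_apply,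
      LinearMap.pi_apply, LinearMap.sum_apply, LinearMap.smul_apply, LinearMap.proj_apply,
      G_apply]

/-- general position -/
theorem exists_c [Finite F] [Infinite K] {r m : ℕ} {L : (Fin r → F) →ₗ[F] K}
    (hL : Function.Injective L) {F' : (Fin m → F) →ₗ[F] K} (hF' : Function.Injective F') :
    ∃ c : K, c ≠ 0 ∧ ∀ v w, c * L v + F' w = 0 → v = 0 ∧ w = 0 := by
  classical
  have := Fintype.ofFinite F
  let bad : Set K := Set.range (fun p : (Fin r → F) × (Fin m → F) => - F' p.2 / L p.1) ∪ {0}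
  have hbad : bad.Finite := (Set.finite_range _).union (Set.finite_singleton 0)
  obtain ⟨c, hc⟩ := hbad.infinite_compl.nonempty
  refine ⟨c, fun h => hc (Or.inr h), ?_⟩
  intro v w hvw
  have hv : v = 0 := by
    by_contra hv
    have hLv : L v ≠ 0 := fun h => hv (hL (by rw [h, map_zero]))
    apply hc
    left
    refine ⟨(v, w), ?_⟩
    rw [div_eq_iff hLv]
    exact (eq_neg_of_add_eq_zero_left hvw).symm
  refine ⟨hv, ?_⟩
  rw [hv, map_zero, mul_zero, zero_add] at hvw
  exact hF' (by rw [hvw, map_zero])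

theorem ur_ne_zero {l : Filter A} {Λ : A → K →ₗ[F] F} {Λ₀ : K →ₗ[F] F} (h : Tends l Λ Λ₀)
    {ι : Type} [Fintype ι] {k : K} (hk : k ≠ 0) (Φ : (ι → F) →ₗ[F] K) (g : ι → K) :
    ∃ u v : A → Module.End F K, (∀ l', IsOp l' Λ u) ∧ (∀ l', IsOp l' Λ v) ∧
      ∀ᶠ a in l, u a * v a = 1 ∧ v a * u a = 1 ∧
        op (Λ a) k Φ g * u a * op (Λ a) k Φ g = op (Λ a) k Φ g := by
  let Φ₁ : (ι → F) →ₗ[F] K := LinearMap.mulLeft F k⁻¹ ∘ₗ Φ
  have hΦ : ∀ c, Φ c = k * Φ₁ c := fun c => (mul_inv_cancel_left₀ hk _).symm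
  let M : Module.End F (ι → F) := G Λ₀ g ∘ₗ Φ₁
  obtain ⟨Q, Z, hQ, hZ1, hZ2⟩ := exists_Q M
  refine ⟨fun a => op (Λ a) k⁻¹ (-(Φ₁ ∘ₗ Q)) (fun i => g i * k⁻¹),
    fun a => op (Λ a) k (LinearMap.mulLeft F k ∘ₗ Φ₁ ∘ₗ (Z * Q)) g,
    fun l' => IsOp.of _ _ _ _ _, fun l' => IsOp.of _ _ _ _ _, ?_⟩
  filter_upwards [h.comp Φ₁ g] with a ha
  have hM : ∀ c, G (Λ a) g (Φ₁ c) = M c := fun c => LinearMap.congr_fun ha c
  have hG : ∀ y, G (Λ a) (fun i => g i * k⁻¹) y = G (Λ a) g (k⁻¹ * y) := by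
    intro y
    ext i
    simp [mul_assoc]
  have hZ1' : ∀ c, Z c - Q (M (Z c)) = c := fun c => LinearMap.congr_fun hZ1 c
  have hZ2' : ∀ c, Z (c - Q (M c)) = c := fun c => LinearMap.congr_fun hZ2 c
  have hQ' : ∀ c, Q (c + M c) + M (Q (c + M c)) = c + M c := fun c => LinearMap.congr_fun hQ c
  refine ⟨?_, ?_, ?_⟩
  · ext y
    set c := G (Λ a) g y with hc
    have e1 : op (Λ a) k (LinearMap.mulLeft F k ∘ₗ Φ₁ ∘ₗ (Z * Q)) g y
        = k * (y + Φ₁ (Z (Q c))) := by
      simp only [op_apply, LinearMap.comp_apply, Module.End.mul_apply, LinearMap.mulLeft_apply,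
        ← hc]
      ring
    rw [Module.End.mul_apply, e1]
    simp only [op_apply, hG, LinearMap.neg_apply, LinearMap.comp_apply,
      inv_mul_cancel_left₀ hk, map_add, hM, ← hc, Module.End.one_apply]
    have e2 := congrArg Φ₁ (hZ1' (Q c))
    -- need `Q c + Q (M (Z (Q c))) = Z (Q c)`
    rw [map_sub] at e2
    rw [← e2]
    ring
  · ext y
    set c := G (Λ a) g (k⁻¹ * y) with hc
    have e1 : op (Λ a) k⁻¹ (-(Φ₁ ∘ₗ Q)) (fun i => g i * k⁻¹) y = k⁻¹ * y - Φ₁ (Q c) := by
      simp only [op_apply, hG, LinearMap.neg_apply, LinearMap.comp_apply, ← hc]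
      ring
    rw [Module.End.mul_apply, e1]
    simp only [op_apply, LinearMap.comp_apply, LinearMap.mulLeft_apply, map_sub, hM, ← hc,
      Module.End.mul_apply, Module.End.one_apply]
    have e2 := congrArg Φ₁ (hZ2' (Q c))
    simp only [map_sub] at e2
    have e3 : k * Φ₁ (Z (Q c)) - k * Φ₁ (Z (Q (M (Q c)))) = k * Φ₁ (Q c) := by
      rw [← mul_sub, e2]
    have e4 : k * (k⁻¹ * y) = y := mul_inv_cancel_left₀ hk y
    linear_combination e3 + e4
  · ext y
    set c := G (Λ a) g y with hc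
    simp only [Module.End.mul_apply, op_apply, hG, LinearMap.neg_apply, LinearMap.comp_apply,
      hΦ, ← hc]
    have e0 : k⁻¹ * (k * y + k * Φ₁ c) = y + Φ₁ c := by
      rw [← mul_add, inv_mul_cancel_left₀ hk]
    rw [e0]
    simp only [map_add, map_neg, hM, ← hc]
    have e2 := congrArg Φ₁ (hQ' c)
    simp only [map_add] at e2
    linear_combination (-k) * e2

theorem ur_zero [Finite F] [Infinite K] {l : Filter A} {Λ : A → K →ₗ[F] F} {Λ₀ : K →ₗ[F] F}
    (h : Tends l Λ Λ₀) (hΛ₀ : Λ₀ ≠ 0)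
    {ι : Type} [Fintype ι] (Φ : (ι → F) →ₗ[F] K) (g : ι → K) :
    ∃ u v : A → Module.End F K, (∀ l', IsOp l' Λ u) ∧ (∀ l', IsOp l' Λ v) ∧
      ∀ᶠ a in l, u a * v a = 1 ∧ v a * u a = 1 ∧
        op (Λ a) 0 Φ g * u a * op (Λ a) 0 Φ g = op (Λ a) 0 Φ g := by
  classical
  obtain ⟨m, b, B, hb, hB⟩ := exists_indep (F := F) g
  obtain ⟨r, L, C, S, hL, hLC, hCS⟩ := exists_factor (Φ ∘ₗ B)
  obtain ⟨F', hF'⟩ := LinearMap.exists_rightInverse_of_surjective (G Λ₀ b)
    (LinearMap.range_eq_top.mpr (G_surj hΛ₀ hb))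
  have hF'inj : Function.Injective F' := by
    intro v w hvw
    have h1 := LinearMap.congr_fun hF' v
    have h2 := LinearMap.congr_fun hF' w
    simp only [LinearMap.comp_apply, LinearMap.id_apply] at h1 h2
    rw [← h1, ← h2, hvw]
  obtain ⟨c, hc0, hc⟩ := exists_c hL hF'inj
  let Ψ : (Fin r ⊕ Fin m → F) →ₗ[F] K :=
    (LinearMap.mulLeft F c ∘ₗ L) ∘ₗ LinearMap.funLeft F F Sum.inl
      + F' ∘ₗ LinearMap.funLeft F F Sum.inr
  have hΨ : Function.Injective Ψ := by
    rw [← LinearMap.ker_eq_bot, LinearMap.ker_eq_bot']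
    intro v hv
    obtain ⟨h1, h2⟩ := hc (v ∘ Sum.inl) (v ∘ Sum.inr) hv
    ext i
    cases i with
    | inl i => exact congrFun h1 i
    | inr i => exact congrFun h2 i
  obtain ⟨g', hg'⟩ := exists_dual (ρ := Fin r) hΛ₀ hΨ (LinearMap.funLeft F F Sum.inl)
  have hg1 : G Λ₀ g' ∘ₗ (LinearMap.mulLeft F c ∘ₗ L) = LinearMap.id := by
    apply LinearMap.ext
    intro v
    have := LinearMap.congr_fun hg' (Sum.elim v 0)
    have e1 : Ψ (Sum.elim v 0) = c * L v := by
      have e2 : LinearMap.funLeft F F Sum.inl (Sum.elim v (0 : Fin m → F)) = v := by ext i; simp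
      have e3 : LinearMap.funLeft F F Sum.inr (Sum.elim v (0 : Fin m → F)) = 0 := by ext i; simp
      simp only [Ψ, LinearMap.add_apply, LinearMap.comp_apply, e2, e3, map_zero, add_zero,
        LinearMap.mulLeft_apply]
    rw [LinearMap.comp_apply, e1] at this
    have e2 : LinearMap.funLeft F F Sum.inl (Sum.elim v (0 : Fin m → F)) = v := by ext i; simp
    rw [e2] at this
    exact this
  have hg2 : G Λ₀ g' ∘ₗ F' = 0 := by
    apply LinearMap.ext
    intro v
    have := LinearMap.congr_fun hg' (Sum.elim 0 v)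
    have e1 : Ψ (Sum.elim 0 v) = F' v := by
      have e2 : LinearMap.funLeft F F Sum.inl (Sum.elim (0 : Fin r → F) v) = 0 := by ext i; simp
      have e3 : LinearMap.funLeft F F Sum.inr (Sum.elim (0 : Fin r → F) v) = v := by ext i; simp
      simp only [Ψ, LinearMap.add_apply, LinearMap.comp_apply, e2, e3, map_zero, zero_add]
    rw [LinearMap.comp_apply, e1] at this
    have e2 : LinearMap.funLeft F F Sum.inl (Sum.elim (0 : Fin r → F) v) = 0 := by ext i; simp
    rw [e2] at this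
    exact this
  let M : (Fin r → F) →ₗ[F] (Fin m → F) := G Λ₀ b ∘ₗ (LinearMap.mulLeft F c ∘ₗ L)
  let AA : (Fin r → F) →ₗ[F] (Fin m → F) := S - M
  refine ⟨fun a => op (Λ a) c (F' ∘ₗ AA) (fun i => g' i * c),
    fun a => op (Λ a) c⁻¹ (-(LinearMap.mulLeft F c⁻¹ ∘ₗ F' ∘ₗ AA)) g',
    fun l' => IsOp.of _ _ _ _ _, fun l' => IsOp.of _ _ _ _ _, ?_⟩
  filter_upwards [h.comp F' b, h.comp F' g', h.comp (LinearMap.mulLeft F c ∘ₗ L) g',
    h.comp (LinearMap.mulLeft F c ∘ₗ L) b] with a h1 h2 h3 h4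
  rw [hF'] at h1
  rw [hg2] at h2
  rw [hg1] at h3
  have h1' : ∀ v, G (Λ a) b (F' v) = v := fun v => LinearMap.congr_fun h1 v
  have h2' : ∀ v, G (Λ a) g' (F' v) = 0 := fun v => LinearMap.congr_fun h2 v
  have h3' : ∀ v, G (Λ a) g' (c * L v) = v := fun v => LinearMap.congr_fun h3 v
  have h4' : ∀ v, G (Λ a) b (c * L v) = M v := fun v => LinearMap.congr_fun h4 v
  have hG : ∀ y, G (Λ a) (fun i => g' i * c) y = G (Λ a) g' (c * y) := by
    intro y
    ext i
    simp [mul_assoc]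
  have hx : ∀ y, op (Λ a) 0 Φ g y = L (C (G (Λ a) b y)) := by
    intro y
    have e1 : Φ (B (G (Λ a) b y)) = L (C (G (Λ a) b y)) := LinearMap.congr_fun hLC _
    rw [op_apply, zero_mul, zero_add, hB, LinearMap.comp_apply, e1]
  refine ⟨?_, ?_, ?_⟩
  · ext y
    simp only [Module.End.mul_apply, op_apply, hG, LinearMap.neg_apply, LinearMap.comp_apply,
      LinearMap.mulLeft_apply, mul_inv_cancel_left₀ hc0, map_add, map_neg, h2',
      Module.End.one_apply]
    simp
  · ext y
    simp only [Module.End.mul_apply, op_apply, hG, LinearMap.neg_apply, LinearMap.comp_apply,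
      LinearMap.mulLeft_apply, inv_mul_cancel_left₀ hc0, map_add, h2',
      Module.End.one_apply]
    simp
  · ext y
    rw [Module.End.mul_apply, Module.End.mul_apply, hx y, hx]
    set w := C (G (Λ a) b y) with hw
    have e1 : op (Λ a) c (F' ∘ₗ AA) (fun i => g' i * c) (L w) = c * L w + F' (AA w) := by
      rw [op_apply, hG, h3', LinearMap.comp_apply]
    rw [e1, map_add, h4', h1']
    have e2 : M w + AA w = S w := by simp [AA]
    rw [e2]
    have e3 : C (S w) = w := LinearMap.congr_fun hCS w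
    rw [e3]

theorem ur [Finite F] [Infinite K] {l : Filter A} {Λ : A → K →ₗ[F] F} {Λ₀ : K →ₗ[F] F}
    (h : Tends l Λ Λ₀) (hΛ₀ : Λ₀ ≠ 0) {x : A → Module.End F K} (hx : IsOp l Λ x) :
    ∃ u v : A → Module.End F K, (∀ l', IsOp l' Λ u) ∧ (∀ l', IsOp l' Λ v) ∧
      ∀ᶠ a in l, u a * v a = 1 ∧ v a * u a = 1 ∧ x a * u a * x a = x a := by
  obtain ⟨ι, _, k, Φ, g, hx⟩ := hx
  have key : ∃ u v : A → Module.End F K, (∀ l', IsOp l' Λ u) ∧ (∀ l', IsOp l' Λ v) ∧
      ∀ᶠ a in l, u a * v a = 1 ∧ v a * u a = 1 ∧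
        op (Λ a) k Φ g * u a * op (Λ a) k Φ g = op (Λ a) k Φ g := by
    by_cases hk : k = 0
    · subst hk
      exact ur_zero h hΛ₀ Φ g
    · exact ur_ne_zero h hk Φ g
  obtain ⟨u, v, hu, hv, huv⟩ := key
  refine ⟨u, v, hu, hv, ?_⟩
  filter_upwards [huv, hx] with a ha hxa
  rw [hxa]
  exact ha

/-- The ring: sequences of operators, each a multiplication plus a finite-rank operator, which
are eventually given by fixed data. -/
def Rg {Λ : ℕ → K →ₗ[F] F} {Λ₀ : K →ₗ[F] F} (h : Tends atTop Λ Λ₀) :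
    Subring (ℕ → Module.End F K) where
  carrier := {x | IsOp atTop Λ x ∧ ∀ n, IsOp (pure n) Λ x}
  mul_mem' := by
    intro x y hx hy
    refine ⟨hx.1.mul h hy.1, fun n => (hx.2 n).mul (Λ₀ := Λ n) ?_ (hy.2 n)⟩
    intro z
    simp
  one_mem' := by
    have : (1 : ℕ → Module.End F K) = fun _ => LinearMap.mulLeft F 1 := by
      funext n
      ext y
      simp
    rw [this]
    exact ⟨IsOp.const _ _ _, fun n => IsOp.const _ _ _⟩
  add_mem' := by
    intro x y hx hy
    exact ⟨hx.1.add hy.1, fun n => (hx.2 n).add (hy.2 n)⟩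
  zero_mem' := by
    have : (0 : ℕ → Module.End F K) = fun _ => LinearMap.mulLeft F 0 := by
      funext n
      ext y
      simp
    rw [this]
    exact ⟨IsOp.const _ _ _, fun n => IsOp.const _ _ _⟩
  neg_mem' := by
    intro x hx
    exact ⟨hx.1.neg, fun n => (hx.2 n).neg⟩

theorem Rg_unitRegular [Finite F] [Infinite K] {Λ : ℕ → K →ₗ[F] F} {Λ₀ : K →ₗ[F] F}
    (h : Tends atTop Λ Λ₀) (hΛ₀ : Λ₀ ≠ 0) (hΛ : ∀ n, Λ n ≠ 0) (x : Rg h) :
    ∃ u : Rg h, IsUnit u ∧ x * u * x = x := by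
  classical
  obtain ⟨u₀, v₀, hu₀, hv₀, h₀⟩ := ur h hΛ₀ x.2.1
  obtain ⟨N, hN⟩ := eventually_atTop.mp h₀
  have hn : ∀ n : ℕ, ∃ u v : ℕ → Module.End F K, (∀ l', IsOp l' Λ u) ∧ (∀ l', IsOp l' Λ v) ∧
      ∀ᶠ a in pure n, u a * v a = 1 ∧ v a * u a = 1 ∧ x.1 a * u a * x.1 a = x.1 a := by
    intro n
    exact ur (l := pure n) (Λ₀ := Λ n) (fun z => by simp) (hΛ n) (x.2.2 n)
  choose U V hU hV hUV using hn
  let u : ℕ → Module.End F K := fun n => if N ≤ n then u₀ n else U n n
  let v : ℕ → Module.End F K := fun n => if N ≤ n then v₀ n else V n n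
  have mem : ∀ (w₀ : ℕ → Module.End F K) (W : ℕ → ℕ → Module.End F K),
      (∀ l', IsOp l' Λ w₀) → (∀ n l', IsOp l' Λ (W n)) →
      (fun n => if N ≤ n then w₀ n else W n n) ∈ Rg h := by
    intro w₀ W hw₀ hW
    constructor
    · obtain ⟨ι, i1, k, Φ, g, hx⟩ := hw₀ atTop
      refine ⟨ι, i1, k, Φ, g, ?_⟩
      filter_upwards [hx, eventually_ge_atTop N] with n hn hNn
      rw [if_pos hNn, hn]
    · intro n
      by_cases hNn : N ≤ n
      · obtain ⟨ι, i1, k, Φ, g, hx⟩ := hw₀ (pure n)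
        refine ⟨ι, i1, k, Φ, g, ?_⟩
        rw [eventually_pure] at hx ⊢
        change (if N ≤ n then w₀ n else W n n) = _
        rw [if_pos hNn, hx]
      · obtain ⟨ι, i1, k, Φ, g, hx⟩ := hW n (pure n)
        refine ⟨ι, i1, k, Φ, g, ?_⟩
        rw [eventually_pure] at hx ⊢
        change (if N ≤ n then w₀ n else W n n) = _
        rw [if_neg hNn, hx]
  have hid : ∀ n, u n * v n = 1 ∧ v n * u n = 1 ∧ x.1 n * u n * x.1 n = x.1 n := by
    intro n
    by_cases hNn : N ≤ n
    · simp only [u, v, if_pos hNn]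
      exact hN n hNn
    · simp only [u, v, if_neg hNn]
      exact eventually_pure.mp (hUV n)
  let uR : Rg h := ⟨u, mem u₀ U hu₀ hU⟩
  let vR : Rg h := ⟨v, mem v₀ V hv₀ hV⟩
  refine ⟨uR, ⟨⟨uR, vR, ?_, ?_⟩, rfl⟩, ?_⟩
  · apply Subtype.ext
    funext n
    exact (hid n).1
  · apply Subtype.ext
    funext n
    exact (hid n).2.1
  · apply Subtype.ext
    funext n
    exact (hid n).2.2

end setting

section core

variable {F K : Type} [Field F] [Field K] [Algebra F K]

/-- the key computation at one index -/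
theorem core {Λ : K →ₗ[F] F} {s t : K} (hst : s * t = 1)
    {a w : Module.End F K} (ha : ∀ y, a y = t * y - Λ y • t)
    (H : ∀ k, 1 ≤ k → a ^ k * w ^ k * a ^ k = a ^ k)
    (hA : ∀ j : ℕ, (a ^ j) (t - a (w t)) ≠ 0)
    (hB : ∀ j : ℕ, ∃ y, Λ ((a ^ j) y - w (a ((a ^ j) y))) ≠ 0) (i : ℕ) :
    Λ (s * (w ^ i) 1) = 0 ∧ ∃ c : F, (w ^ (i + 1)) 1 = s * (w ^ i) 1 - c • (1 : K) := by
  have hts : t * s = 1 := by rw [mul_comm]; exact hst
  have H1 : ∀ y, a (w (a y)) = a y := by
    intro y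
    have := LinearMap.congr_fun (H 1 le_rfl) y
    simpa using this
  have has : ∀ v, a (s * v) = v - Λ (s * v) • t := by
    intro v
    rw [ha, ← mul_assoc, hts, one_mul]
  have hδ : ∀ v, v - a (w v) = Λ (s * v) • (t - a (w t)) := by
    intro v
    have e1 : v = a (s * v) + Λ (s * v) • t := by rw [has]; abel
    have e2 : a (w v) = a (s * v) + Λ (s * v) • a (w t) := by
      conv_lhs => rw [e1]
      rw [map_add, map_add, H1, map_smul, map_smul]
    rw [e2, has, smul_sub]
    abel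
  have C1 : ∀ (j : ℕ) (y : K), Λ (s * (w ^ j) ((a ^ (j + 1)) y)) = 0 := by
    intro j y
    set v := (w ^ j) ((a ^ (j + 1)) y) with hv
    have e1 : (a ^ j) v = (a ^ (j + 1)) y := by
      rcases Nat.eq_zero_or_pos j with hj | hj
      · subst hj
        simp [hv]
      · have := LinearMap.congr_fun (H j hj) (a y)
        simp only [Module.End.mul_apply] at this
        rw [hv, pow_succ, Module.End.mul_apply]
        exact this
    have e2 : (a ^ j) (a (w v)) = (a ^ (j + 1)) y := by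
      have := LinearMap.congr_fun (H (j + 1) (Nat.succ_le_succ (Nat.zero_le j))) y
      simp only [Module.End.mul_apply] at this
      conv_rhs => rw [← this]
      rw [pow_succ a j, Module.End.mul_apply, pow_succ' w j, Module.End.mul_apply, hv,
        pow_succ a j]
    have e3 : Λ (s * v) • (a ^ j) (t - a (w t)) = 0 := by
      rw [← map_smul, ← hδ, map_sub, e1, e2, sub_self]
    rcases smul_eq_zero.mp e3 with h | h
    · exact h
    · exact absurd h (hA j)
  have hker : ∀ z, a z = 0 → z = Λ z • (1 : K) := by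
    intro z hz
    rw [ha] at hz
    have : s * (t * z - Λ z • t) = 0 := by rw [hz, mul_zero]
    rw [mul_sub, ← mul_assoc, hst, one_mul, mul_smul_comm, hst] at this
    exact sub_eq_zero.mp this
  have hΨ : ∀ y, w (a y) = y - Λ (y - w (a y)) • (1 : K) := by
    intro y
    have e1 : a (y - w (a y)) = 0 := by rw [map_sub, H1, sub_self]
    have e2 := hker _ e1
    rw [← e2]
    abel
  have C3 : Λ (s * (w ^ i) 1) = 0 := by
    obtain ⟨y, hy⟩ := hB (i + 1)
    have e1 := C1 (i + 1) y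
    rw [pow_succ' a (i + 1), Module.End.mul_apply, pow_succ w i, Module.End.mul_apply,
      hΨ ((a ^ (i + 1)) y), map_sub, map_smul, mul_sub, mul_smul_comm, map_sub, C1 i y,
      map_smul, zero_sub, neg_eq_zero, smul_eq_mul] at e1
    rcases mul_eq_zero.mp e1 with h | h
    · exact absurd h hy
    · exact h
  refine ⟨C3, Λ (s * (w ^ i) 1 - w (a (s * (w ^ i) 1))), ?_⟩
  rw [← hΨ, has, C3, zero_smul, sub_zero, pow_succ', Module.End.mul_apply]

end core

section final

variable {F K : Type} [Field F] [Field K] [Algebra F K]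

/-- the limit functional -/
noncomputable def Lam0 (l : K →ₗ[F] F[X]) : K →ₗ[F] F := Polynomial.lcoeff F 0 ∘ₗ l

/-- the functionals -/
noncomputable def Lam (l : K →ₗ[F] F[X]) (n : ℕ) : K →ₗ[F] F :=
  Polynomial.lcoeff F 0 ∘ₗ l + Polynomial.lcoeff F (n + 1) ∘ₗ l

theorem Lam0_apply (l : K →ₗ[F] F[X]) (x : K) : Lam0 l x = (l x).coeff 0 := rfl

theorem Lam_apply (l : K →ₗ[F] F[X]) (n : ℕ) (x : K) :
    Lam l n x = (l x).coeff 0 + (l x).coeff (n + 1) := rfl

theorem tends_Lam (l : K →ₗ[F] F[X]) : Tends atTop (Lam l) (Lam0 l) := by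
  intro x
  filter_upwards [eventually_ge_atTop (l x).natDegree] with n hn
  have h0 : (l x).coeff (n + 1) = 0 := Polynomial.coeff_eq_zero_of_natDegree_lt (by omega)
  rw [Lam_apply, Lam0_apply, h0, add_zero]

variable {s t : K} {l : K →ₗ[F] F[X]}

/-- the element `a` -/
noncomputable def aseq (l : K →ₗ[F] F[X]) (t : K) (n : ℕ) : Module.End F K :=
  LinearMap.mulLeft F t - (Lam l n).smulRight t

theorem aseq_apply (n : ℕ) (y : K) : aseq l t n y = t * y - Lam l n y • t := rfl

theorem aseq_isOp (f : Filter ℕ) : IsOp f (Lam l) (aseq l t) := by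
  refine ⟨Unit, inferInstance, t, -((LinearMap.proj ()).smulRight t), fun _ => 1, ?_⟩
  filter_upwards with n
  ext y
  simp [aseq_apply, sub_eq_add_neg]

/-- the element `a` of the ring -/
noncomputable def aR (l : K →ₗ[F] F[X]) (t : K) : Rg (tends_Lam l) :=
  ⟨aseq l t, aseq_isOp _, fun _ => aseq_isOp _⟩

theorem mem_P (hst : s * t = 1) (n j : ℕ) (y : K) (h : (aseq l t n ^ j) y = 0) :
    ∃ p : F[X], y = aeval s p := by
  have h1 : ∀ y, (∃ p : F[X], aseq l t n y = aeval s p) → ∃ p : F[X], y = aeval s p := by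
    rintro y ⟨p, hp⟩
    refine ⟨X * p + C (Lam l n y), ?_⟩
    rw [map_add, map_mul, aeval_X, aeval_C, ← hp, aseq_apply, mul_sub, ← mul_assoc, hst, one_mul,
      mul_smul_comm, hst, Algebra.algebraMap_eq_smul_one]
    abel
  have h2 : ∀ j y, (∃ p : F[X], (aseq l t n ^ j) y = aeval s p) → ∃ p : F[X], y = aeval s p := by
    intro j
    induction j with
    | zero => intro y hy; simpa using hy
    | succ j ih =>
      intro y hy
      rw [pow_succ, Module.End.mul_apply] at hy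
      exact h1 y (ih _ hy)
  exact h2 j y ⟨0, by rw [h, map_zero]⟩

theorem mem_Q (hst : s * t = 1) (n : ℕ) (hΛ : Lam l n ≠ 0) (j : ℕ) : ∀ (m : K),
    (∀ y, Lam l n (m * (aseq l t n ^ j) y) = 0) → ∃ p : F[X], m = s * aeval s p := by
  induction j with
  | zero =>
    intro m h
    refine ⟨0, ?_⟩
    rw [map_zero, mul_zero]
    by_contra hm
    apply hΛ
    ext x
    have := h (m⁻¹ * x)
    rw [pow_zero, Module.End.one_apply, mul_inv_cancel_left₀ hm] at this
    simpa using this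
  | succ j ih =>
    intro m h
    obtain ⟨p, hp⟩ := ih (m * t - Lam l n (m * t) • (1 : K)) (by
      intro y
      have := h y
      rw [pow_succ', Module.End.mul_apply, aseq_apply, mul_sub, mul_smul_comm, map_sub,
        map_smul] at this
      rw [sub_mul, map_sub, smul_one_mul, map_smul, smul_eq_mul, mul_assoc, mul_comm (Lam l n (m * t))]
      simpa using this)
    refine ⟨X * p + C (Lam l n (m * t)), ?_⟩
    have hts : t * s = 1 := by rw [mul_comm]; exact hst
    rw [map_add, map_mul, aeval_X, aeval_C, ← hp, Algebra.algebraMap_eq_smul_one]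
    have : m = s * (m * t) := by rw [mul_comm m t, ← mul_assoc, hst, one_mul]
    conv_lhs => rw [this]
    congr 1
    abel

theorem Lam0_sP (hl : ∀ p, l (aeval s p) = p) (p : F[X]) : Lam0 l (s * aeval s p) = 0 := by
  have : s * aeval s p = aeval s (X * p) := by rw [map_mul, aeval_X]
  rw [this, Lam0_apply, hl]
  simp

theorem l_one (hl : ∀ p, l (aeval s p) = p) : l 1 = 1 := by
  have := hl 1
  rwa [map_one] at this

theorem no_common (hst : s * t = 1) (hl : ∀ p, l (aeval s p) = p) (w : Rg (tends_Lam l)) :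
    ∃ k, 1 ≤ k ∧ aR l t ^ k * w ^ k * aR l t ^ k ≠ aR l t ^ k := by
  classical
  by_contra hcon
  push Not at hcon
  have hts : t * s = 1 := by rw [mul_comm]; exact hst
  have H : ∀ n k, 1 ≤ k → aseq l t n ^ k * w.1 n ^ k * aseq l t n ^ k = aseq l t n ^ k := by
    intro n k hk
    have := congrArg Subtype.val (hcon k hk)
    exact congrFun this n
  have hL1 : Lam0 l 1 = 1 := by rw [Lam0_apply, l_one hl]; simp
  have hLn1 : ∀ n, Lam l n 1 = 1 := by
    intro n
    rw [Lam_apply, l_one hl]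
    simp [Polynomial.coeff_one]
  have hLn : ∀ n, Lam l n ≠ 0 := by
    intro n h
    have := hLn1 n
    rw [h] at this
    simp at this
  obtain ⟨ι, i1, κ, Φ, g, hw⟩ := w.2.1
  -- the two eventually constant quantities
  let z₀ : K := κ * t + Φ (G (Lam0 l) g t)
  have hz : ∀ᶠ n in atTop, w.1 n t = z₀ := by
    have h1 : ∀ᶠ n in atTop, ∀ i, Lam l n (g i * t) = Lam0 l (g i * t) :=
      eventually_all.mpr fun i => tends_Lam l _
    filter_upwards [hw, h1] with n hn h1
    rw [hn, op_apply]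
    have : G (Lam l n) g t = G (Lam0 l) g t := by
      ext i
      exact h1 i
    rw [this]
  let κ' : K := κ + ∑ i, Lam0 l (Φ (Pi.single i 1)) • g i
  have hk : ∀ᶠ n in atTop, ∀ v, Lam l n (w.1 n v) = Lam l n (κ' * v) := by
    have h1 : ∀ᶠ n in atTop, ∀ i, Lam l n (Φ (Pi.single i 1)) = Lam0 l (Φ (Pi.single i 1)) :=
      eventually_all.mpr fun i => tends_Lam l _
    filter_upwards [hw, h1] with n hn h1 v
    rw [hn, op_apply, map_add]
    have e1 : Lam l n (Φ (G (Lam l n) g v))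
        = ∑ i, Lam l n (g i * v) * Lam0 l (Φ (Pi.single i 1)) := by
      have h3 : G (Lam l n) g v = ∑ j, (G (Lam l n) g v j) • (Pi.single j 1 : ι → F) := by
        ext i
        simp [Finset.sum_apply, Pi.single_apply]
      rw [h3, map_sum, map_sum]
      apply Finset.sum_congr rfl
      intro i _
      rw [map_smul, map_smul, h1, G_apply, smul_eq_mul]
    rw [e1]
    simp only [κ', add_mul, map_add, Finset.sum_mul, map_sum, smul_mul_assoc, map_smul,
      smul_eq_mul]
    congr 1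
    apply Finset.sum_congr rfl
    intro i _
    ring
  let m₀ : K := 1 - κ' * t + Lam0 l (κ' * t) • (1 : K)
  have hzz : ∀ᶠ n in atTop, Lam l n z₀ = Lam0 l z₀ := tends_Lam l _
  have hkk : ∀ᶠ n in atTop, Lam l n (κ' * t) = Lam0 l (κ' * t) := tends_Lam l _
  obtain ⟨n, hzn, hkn, hzzn, hkkn⟩ := (hz.and (hk.and (hzz.and hkk))).exists
  -- non-degeneracy (A)
  have hA : ∀ j : ℕ, (aseq l t n ^ j) (t - aseq l t n (w.1 n t)) ≠ 0 := by
    intro j hj
    obtain ⟨p, hp⟩ := mem_P hst n j _ hj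
    have e1 : s * (t - aseq l t n (w.1 n t)) = 1 - z₀ + Lam0 l z₀ • (1 : K) := by
      rw [hzn, aseq_apply, hzzn, mul_sub, hst, mul_sub, ← mul_assoc, hst, one_mul, mul_smul_comm,
        hst]
      abel
    have e2 : Lam0 l (s * (t - aseq l t n (w.1 n t))) = 1 := by
      rw [e1, map_add, map_sub, map_smul, hL1, smul_eq_mul]
      ring
    rw [hp, Lam0_sP hl] at e2
    exact zero_ne_one e2
  -- non-degeneracy (B)
  have hB : ∀ j : ℕ, ∃ y, Lam l n ((aseq l t n ^ j) y - w.1 n (aseq l t n ((aseq l t n ^ j) y)))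
      ≠ 0 := by
    intro j
    by_contra hno
    push Not at hno
    have e1 : ∀ v, Lam l n (v - w.1 n (aseq l t n v)) = Lam l n (m₀ * v) := by
      intro v
      rw [map_sub, hkn, aseq_apply, mul_sub, mul_smul_comm, map_sub, map_smul, hkkn]
      simp only [m₀, add_mul, sub_mul, one_mul, map_add, map_sub, smul_mul_assoc, map_smul,
        smul_eq_mul, mul_assoc]
      ring
    obtain ⟨p, hp⟩ := mem_Q hst n (hLn n) j m₀ (fun y => by rw [← e1]; exact hno y)
    have e2 : Lam0 l m₀ = 1 := by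
      simp only [m₀, map_add, map_sub, map_smul, hL1, smul_eq_mul]
      ring
    rw [hp, Lam0_sP hl] at e2
    exact zero_ne_one e2
  have hcore := core hst (fun y => aseq_apply n y) (H n) hA hB
  have hq : ∀ i : ℕ, ∃ q : F[X], q.Monic ∧ q.natDegree = i ∧ (w.1 n ^ i) 1 = aeval s q := by
    intro i
    induction i with
    | zero => exact ⟨1, monic_one, natDegree_one, by simp⟩
    | succ i ih =>
      obtain ⟨q, hq1, hq2, hq3⟩ := ih
      obtain ⟨c, hc⟩ := (hcore i).2
      have hX : (X * q).Monic := monic_X.mul hq1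
      have hXd : (X * q).natDegree = i + 1 := by
        rw [natDegree_X_mul hq1.ne_zero, hq2]
      have hdeg : (C c).degree < (X * q).degree := by
        rw [degree_eq_natDegree hX.ne_zero, hXd]
        exact lt_of_le_of_lt degree_C_le (by exact_mod_cast Nat.succ_pos i)
      refine ⟨X * q - C c, hX.sub_of_left hdeg, ?_, ?_⟩
      · rw [natDegree_sub_eq_left_of_natDegree_lt (by rw [natDegree_C, hXd]; exact Nat.succ_pos i),
          hXd]
      · rw [hc, hq3, map_sub, map_mul, aeval_X, aeval_C, Algebra.algebraMap_eq_smul_one]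
  obtain ⟨q, hq1, hq2, hq3⟩ := hq n
  have h0 := (hcore n).1
  rw [hq3] at h0
  have : s * aeval s q = aeval s (X * q) := by rw [map_mul, aeval_X]
  rw [this, Lam_apply, hl, coeff_X_mul_zero, coeff_X_mul, zero_add] at h0
  have h1 : q.coeff n = 1 := by
    rw [← hq2]
    exact hq1
  rw [h1] at h0
  exact one_ne_zero h0

end final

/-- **Q1 of MP_a7dadb_al, negative answer.** There are a unit-regular ring `R` and an element `a`
of `R` such that no `w` in `R` satisfies `a ^ k * w ^ k * a ^ k = a ^ k` for all `k ≥ 1`. -/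
theorem result : ∃ (R : Type) (_ : Ring R), IsUnitRegular R ∧
    ∃ a : R, ∀ w : R, ∃ k, 1 ≤ k ∧ a ^ k * w ^ k * a ^ k ≠ a ^ k := by
  let F := ZMod 2
  let K := RatFunc F
  have hinj : Function.Injective (aeval (RatFunc.X : K) : F[X] →ₐ[F] K) := by
    intro p q hpq
    have h1 : ∀ p : F[X], aeval (RatFunc.X : K) p = algebraMap F[X] K p := by
      intro p
      rw [← RatFunc.algebraMap_X, Polynomial.aeval_algebraMap_apply, Polynomial.aeval_X_left_apply]
    rw [h1, h1] at hpq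
    exact RatFunc.algebraMap_injective F hpq
  obtain ⟨l, hl⟩ := LinearMap.exists_leftInverse_of_injective
    (aeval (RatFunc.X : K) : F[X] →ₐ[F] K).toLinearMap (LinearMap.ker_eq_bot.mpr hinj)
  have hl' : ∀ p : F[X], l (aeval (RatFunc.X : K) p) = p := fun p => LinearMap.congr_fun hl p
  have hst : (RatFunc.X : K) * (RatFunc.X : K)⁻¹ = 1 := mul_inv_cancel₀ RatFunc.X_ne_zero
  have : Infinite K := Infinite.of_injective _ hinj
  have hL0 : Lam0 l ≠ 0 := by
    intro h
    have : Lam0 l 1 = 1 := by rw [Lam0_apply, l_one hl']; simp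
    rw [h] at this
    simp at this
  have hLn : ∀ n, Lam l n ≠ 0 := by
    intro n h
    have : Lam l n 1 = 1 := by
      rw [Lam_apply, l_one hl']
      simp [Polynomial.coeff_one]
    rw [h] at this
    simp at this
  refine ⟨Rg (tends_Lam l), inferInstance, Rg_unitRegular (tends_Lam l) hL0 hLn,
    aR l (RatFunc.X : K)⁻¹, fun w => ?_⟩
  exact no_common hst hl' w

end Pool.Agent.Results.MP_a7dadb_al.NoCommonInnerInverse
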